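import Mathlib

/-! Partial sums of `N`-term polynomials bounded by one on the unit circle can be as large as
`c * N ^ (1/3)`. -/

open Finset Polynomial

namespace Pool.Agent.Results.MP_9a0a6c_an.CubeRoot

/-- multiplicative-weights sampling -/
lemma sampling {ι Y : Type} (s : Finset ι) (p : ι → ℝ) (hp : ∀ i ∈ s, 0 ≤ p i)
    (hsum : ∑ i ∈ s, p i = 1) (T : Finset Y) (v : ι → Y → ℝ) (hv : ∀ i y, |v i y| ≤ 2)
    (hmean : ∀ y, ∑ i ∈ s, p i * v i y = 0) (η : ℝ) (h0 : 0 ≤ η) (h1 : η ≤ 1 / 2) (n : ℕ) :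
    ∃ f : ℕ → ι, (∀ l < n, f l ∈ s) ∧
      ∑ y ∈ T, Real.exp (η * ∑ l ∈ range n, v (f l) y) ≤ T.card * Real.exp (4 * η ^ 2 * n) := by
  have hne : s.Nonempty := by
    rcases s.eq_empty_or_nonempty with h | h
    · rw [h] at hsum; simp at hsum
    · exact h
  induction n with
  | zero =>
    obtain ⟨i, hi⟩ := hne
    exact ⟨fun _ => i, fun l hl => absurd hl (Nat.not_lt_zero _), by simp⟩
  | succ n ih =>
    obtain ⟨f, hf, hb⟩ := ih
    set w : Y → ℝ := fun y => Real.exp (η * ∑ l ∈ range n, v (f l) y) with hw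
    have hE : ∀ y, ∑ i ∈ s, p i * Real.exp (η * v i y) ≤ Real.exp (4 * η ^ 2) := by
      intro y
      have h2 : ∀ i ∈ s, p i * Real.exp (η * v i y) ≤
          p i * (1 + 4 * η ^ 2) + η * (p i * v i y) := by
        intro i hi
        have ha : |η * v i y| ≤ 1 := by
          rw [abs_mul, abs_of_nonneg h0]; nlinarith [hv i y, abs_nonneg (v i y)]
        have hb := (abs_le.1 (Real.abs_exp_sub_one_sub_id_le ha)).2
        have hc : (v i y) ^ 2 ≤ 4 := by
          have := abs_le.1 (hv i y); nlinarith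
        have hd : (η * v i y) ^ 2 ≤ 4 * η ^ 2 := by rw [mul_pow]; nlinarith [sq_nonneg η]
        have := hp i hi
        nlinarith
      calc _ ≤ ∑ i ∈ s, (p i * (1 + 4 * η ^ 2) + η * (p i * v i y)) := sum_le_sum h2
        _ = 1 + 4 * η ^ 2 := by
          rw [sum_add_distrib, ← sum_mul, ← mul_sum, hsum, hmean]; ring
        _ ≤ _ := by linarith [Real.add_one_le_exp (4 * η ^ 2)]
    have hA : ∑ i ∈ s, p i * (∑ y ∈ T, w y * Real.exp (η * v i y)) ≤
        Real.exp (4 * η ^ 2) * ∑ y ∈ T, w y := by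
      calc _ = ∑ y ∈ T, w y * ∑ i ∈ s, p i * Real.exp (η * v i y) := by
            simp_rw [mul_sum]
            rw [sum_comm]
            refine sum_congr rfl fun y _ => sum_congr rfl fun i _ => by ring
        _ ≤ ∑ y ∈ T, w y * Real.exp (4 * η ^ 2) :=
            sum_le_sum fun y _ => mul_le_mul_of_nonneg_left (hE y) (Real.exp_pos _).le
        _ = _ := by rw [← sum_mul, mul_comm]
    obtain ⟨i, hi, hmin⟩ := exists_min_image s (fun i => ∑ y ∈ T, w y * Real.exp (η * v i y)) hne
    have hB : ∑ y ∈ T, w y * Real.exp (η * v i y) ≤ Real.exp (4 * η ^ 2) * ∑ y ∈ T, w y := by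
      refine le_trans ?_ hA
      calc _ = ∑ j ∈ s, p j * (∑ y ∈ T, w y * Real.exp (η * v i y)) := by
            rw [← sum_mul, hsum, one_mul]
        _ ≤ _ := sum_le_sum fun j hj => mul_le_mul_of_nonneg_left (hmin j hj) (hp j hj)
    refine ⟨fun l => if l < n then f l else i, ?_, ?_⟩
    · intro l _
      by_cases h : l < n
      · simp only [h, if_true]; exact hf l h
      · simp only [h, if_false]; exact hi
    · have h3 : ∀ y, Real.exp (η * ∑ l ∈ range (n + 1), v (if l < n then f l else i) y) =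
          w y * Real.exp (η * v i y) := by
        intro y
        rw [sum_range_succ, if_neg (lt_irrefl n), hw, ← Real.exp_add, mul_add]
        congr 3
        exact sum_congr rfl fun l hl => by rw [if_pos (mem_range.1 hl)]
      simp_rw [h3]
      refine hB.trans ?_
      calc _ ≤ Real.exp (4 * η ^ 2) * (T.card * Real.exp (4 * η ^ 2 * n)) :=
            mul_le_mul_of_nonneg_left hb (Real.exp_pos _).le
        _ = _ := by
            rw [mul_left_comm, ← Real.exp_add]; congr 2; push_cast; ring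

lemma sin_sum_id (t : ℝ) (n : ℕ) :
    2 * Real.sin (t / 2) * ∑ i ∈ range n, Real.sin ((i + 1) * t) =
      Real.cos (t / 2) - Real.cos (n * t + t / 2) := by
  induction n with
  | zero => simp
  | succ n ih =>
    rw [sum_range_succ, mul_add, ih]
    have h1 : (n : ℝ) * t + t / 2 = (n + 1) * t - t / 2 := by ring
    have h2 : ((n + 1 : ℕ) : ℝ) * t + t / 2 = (n + 1) * t + t / 2 := by push_cast; ring
    rw [h1, h2, Real.cos_sub, Real.cos_add]; ring

lemma sin_sum_bound (t : ℝ) (h0 : 0 ≤ t) (h1 : t ≤ Real.pi) (n : ℕ) (hn : 0 < n) :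
    |∑ i ∈ range n, Real.sin ((i + 1) * t)| / n ≤
      24 * (2 * (n * t) / (1 + 2 * (n * t)) - n * t / (1 + n * t)) := by
  have hn' : (0 : ℝ) < n := by exact_mod_cast hn
  set x : ℝ := n * t with hx
  have hx0 : 0 ≤ x := by positivity
  have hR : 2 * x / (1 + 2 * x) - x / (1 + x) = x / ((1 + x) * (1 + 2 * x)) := by
    field_simp; ring
  rw [hR]
  set S := |∑ i ∈ range n, Real.sin ((i + 1) * t)| with hS
  have hS0 : 0 ≤ S := abs_nonneg _
  rw [div_le_iff₀ hn', ← mul_div_assoc, div_mul_eq_mul_div, le_div_iff₀ (by positivity)]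
  rcases le_total x 1 with h | h
  · have h2 : S ≤ n * x := by
      calc S ≤ ∑ i ∈ range n, |Real.sin ((i + 1) * t)| := abs_sum_le_sum_abs _ _
        _ ≤ ∑ i ∈ range n, x := by
          refine sum_le_sum fun i hi => Real.abs_sin_le_abs.trans ?_
          have : (i : ℝ) + 1 ≤ n := by exact_mod_cast mem_range.1 hi
          rw [abs_of_nonneg (by positivity)]
          exact mul_le_mul_of_nonneg_right this h0
        _ = n * x := by simp
    have h3 : (1 + x) * (1 + 2 * x) ≤ 6 := by nlinarith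
    calc S * ((1 + x) * (1 + 2 * x)) ≤ (n * x) * 6 :=
          mul_le_mul h2 h3 (by positivity) (by positivity)
      _ ≤ _ := by nlinarith [mul_nonneg hn'.le hx0]
  · have h4 := Real.mul_le_sin (x := t / 2) (by linarith) (by linarith)
    have h5 : 2 * Real.sin (t / 2) * S ≤ 2 := by
      have hs : 0 ≤ Real.sin (t / 2) := le_trans (by have := Real.pi_pos; positivity) h4
      have := sin_sum_id t n
      have h6 : |2 * Real.sin (t / 2) * ∑ i ∈ range n, Real.sin ((i + 1) * t)| ≤ 2 := by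
        rw [this, abs_le]
        constructor <;> linarith [Real.cos_le_one (t / 2), Real.neg_one_le_cos (t / 2),
          Real.cos_le_one (n * t + t / 2), Real.neg_one_le_cos (n * t + t / 2)]
      rwa [abs_mul, abs_of_nonneg (by positivity)] at h6
    have h7 : t / 4 ≤ Real.sin (t / 2) := by
      refine le_trans ?_ h4
      have hp := Real.pi_pos
      have hp4 := Real.pi_le_four
      rw [div_mul_eq_mul_div, le_div_iff₀ hp]; nlinarith
    have h8 : t * S ≤ 4 := by nlinarith
    have h9 : x * S ≤ 4 * n := by rw [hx]; nlinarith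
    have h3 : (1 + x) * (1 + 2 * x) ≤ 6 * x * x := by nlinarith
    calc S * ((1 + x) * (1 + 2 * x)) ≤ S * (6 * x * x) := mul_le_mul_of_nonneg_left h3 hS0
      _ = 6 * x * (x * S) := by ring
      _ ≤ 6 * x * (4 * n) := mul_le_mul_of_nonneg_left h9 (by positivity)
      _ = _ := by ring

/-- the mean of the sampled sines -/
noncomputable def mean (K : ℕ) (t : ℝ) : ℝ :=
  ∑ j ∈ range K, ∑ i ∈ range (2 ^ j), 1 / ((K : ℝ) * 2 ^ j) * Real.sin ((i + 1) * t)

lemma mean_bound (K : ℕ) (hK : 0 < K) (t : ℝ) (h0 : 0 ≤ t) (h1 : t ≤ Real.pi) :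
    |mean K t| ≤ 24 / K := by
  have hK' : (0 : ℝ) < K := by exact_mod_cast hK
  set h : ℕ → ℝ := fun j => 2 ^ j * t / (1 + 2 ^ j * t) with hh
  have h2 : ∀ j ∈ range K,
      |∑ i ∈ range (2 ^ j), 1 / ((K : ℝ) * 2 ^ j) * Real.sin ((i + 1) * t)| ≤
        24 / K * (h (j + 1) - h j) := by
    intro j _
    have := sin_sum_bound t h0 h1 (2 ^ j) (by positivity)
    push_cast at this
    rw [← mul_sum, abs_mul, abs_of_nonneg (by positivity)]
    have e1 : h (j + 1) = 2 * (2 ^ j * t) / (1 + 2 * (2 ^ j * t)) := by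
      simp only [hh, pow_succ]; ring_nf
    rw [e1]
    calc _ = 1 / K * (|∑ i ∈ range (2 ^ j), Real.sin ((i + 1) * t)| / 2 ^ j) := by
          generalize |∑ i ∈ range (2 ^ j), Real.sin ((i + 1) * t)| = S
          field_simp
      _ ≤ 1 / K * (24 * (2 * (2 ^ j * t) / (1 + 2 * (2 ^ j * t)) - 2 ^ j * t / (1 + 2 ^ j * t))) :=
          mul_le_mul_of_nonneg_left this (by positivity)
      _ = _ := by simp only [hh]; ring
  calc |mean K t| ≤ ∑ j ∈ range K, 24 / K * (h (j + 1) - h j) :=
        (abs_sum_le_sum_abs _ _).trans (sum_le_sum h2)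
    _ = 24 / K * (h K - h 0) := by rw [← mul_sum, sum_range_sub]
    _ ≤ 24 / K * 1 := by
        refine mul_le_mul_of_nonneg_left ?_ (by positivity)
        have a1 : 0 ≤ h 0 := by simp only [hh]; positivity
        have a2 : h K ≤ 1 := by
          simp only [hh]; rw [div_le_one (by positivity)]; linarith
        linarith
    _ = _ := mul_one _

lemma mean_abs_le_one (K : ℕ) (hK : 0 < K) (t : ℝ) : |mean K t| ≤ 1 := by
  have hK' : (0 : ℝ) < K := by exact_mod_cast hK
  calc |mean K t| ≤ ∑ j ∈ range K, ∑ i ∈ range (2 ^ j), 1 / ((K : ℝ) * 2 ^ j) := by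
        refine (abs_sum_le_sum_abs _ _).trans (sum_le_sum fun j _ =>
          (abs_sum_le_sum_abs _ _).trans (sum_le_sum fun i _ => ?_))
        rw [abs_mul, abs_of_nonneg (by positivity)]
        exact mul_le_of_le_one_right (by positivity) (Real.abs_sin_le_one _)
    _ = ∑ j ∈ range K, 1 / (K : ℝ) := by
        refine sum_congr rfl fun j _ => ?_
        rw [sum_const, card_range, nsmul_eq_mul]; push_cast; field_simp
    _ = 1 := by rw [sum_const, card_range, nsmul_eq_mul]; field_simp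

/-- `K ^ 3` frequencies in `[1, 2 ^ K]` whose sine sum is uniformly at most `37 K ^ 2` -/
lemma frequencies (K : ℕ) (hK : 0 < K) :
    ∃ k : ℕ → ℕ, (∀ l < K ^ 3, 1 ≤ k l ∧ k l ≤ 2 ^ K) ∧
      ∀ t : ℝ, |t| ≤ Real.pi → |∑ l ∈ range (K ^ 3), Real.sin (k l * t)| ≤ 37 * (K : ℝ) ^ 2 := by
  have hK' : (1 : ℝ) ≤ K := by exact_mod_cast hK
  set s : Finset (Σ _ : ℕ, ℕ) := (range K).sigma fun j => range (2 ^ j) with hs
  set p : (Σ _ : ℕ, ℕ) → ℝ := fun a => 1 / ((K : ℝ) * 2 ^ a.1) with hp
  set T : Finset (ℕ × Bool) := range (4 ^ (K + 1)) ×ˢ univ with hT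
  set g : ℕ → ℝ := fun m => m / 4 ^ K with hg
  set v : (Σ _ : ℕ, ℕ) → ℕ × Bool → ℝ := fun a y =>
    (if y.2 then 1 else -1) * (Real.sin ((a.2 + 1) * g y.1) - mean K (g y.1)) with hv
  have hsum : ∑ a ∈ s, p a = 1 := by
    rw [hs, sum_sigma]
    calc _ = ∑ j ∈ range K, 1 / (K : ℝ) := by
          refine sum_congr rfl fun j _ => ?_
          simp only [hp]
          rw [sum_const, card_range, nsmul_eq_mul]; push_cast; field_simp
      _ = 1 := by rw [sum_const, card_range, nsmul_eq_mul]; field_simp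
  obtain ⟨f, hf, hb⟩ := sampling s p (fun a _ => by simp only [hp]; positivity) hsum T v
    (by
      intro a y
      have h1 := abs_le.1 (mean_abs_le_one K hK (g y.1))
      have h2 := abs_le.1 (Real.abs_sin_le_one ((a.2 + 1) * g y.1))
      simp only [hv]
      split_ifs <;> rw [abs_le] <;> constructor <;> linarith)
    (by
      intro y
      have : ∑ a ∈ s, p a * Real.sin ((a.2 + 1) * g y.1) = mean K (g y.1) := by
        rw [hs, sum_sigma]; rfl
      calc _ = (if y.2 then 1 else -1) * (∑ a ∈ s, p a * Real.sin ((a.2 + 1) * g y.1) -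
            (∑ a ∈ s, p a) * mean K (g y.1)) := by
            rw [sum_mul, ← sum_sub_distrib, mul_sum]
            refine sum_congr rfl fun a _ => by simp only [hv]; ring
        _ = 0 := by rw [this, hsum]; ring)
    (1 / (2 * K)) (by positivity) (by rw [div_le_div_iff₀ (by positivity) (by positivity)]; linarith)
    (K ^ 3)
  have hcard : (T.card : ℝ) ≤ Real.exp (5 * K) := by
    have h1 : (T.card : ℝ) = 2 ^ (2 * K + 3) := by
      rw [hT, card_product, card_range, card_univ, Fintype.card_bool]; push_cast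
      rw [show (4 : ℝ) = 2 ^ 2 by norm_num, ← pow_mul]; ring
    have h2 : (2 : ℝ) ≤ Real.exp 1 := by linarith [Real.add_one_le_exp (1 : ℝ)]
    calc (T.card : ℝ) = 2 ^ (2 * K + 3) := h1
      _ ≤ Real.exp 1 ^ (2 * K + 3) := pow_le_pow_left₀ (by norm_num) h2 _
      _ = Real.exp ((2 * K + 3 : ℕ) * 1) := by rw [Real.exp_nat_mul]
      _ ≤ _ := Real.exp_le_exp.2 (by push_cast; linarith)
  have hdev : ∀ y ∈ T, ∑ l ∈ range (K ^ 3), v (f l) y ≤ 12 * (K : ℝ) ^ 2 := by
    intro y hy
    have h1 := (single_le_sum (f := fun y => Real.exp (1 / (2 * K) * ∑ l ∈ range (K ^ 3), v (f l) y))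
      (fun y _ => (Real.exp_pos _).le) hy).trans hb
    have h2 := h1.trans (mul_le_mul_of_nonneg_right hcard (Real.exp_pos _).le)
    rw [← Real.exp_add, Real.exp_le_exp] at h2
    have h3 : 4 * (1 / (2 * (K : ℝ))) ^ 2 * ((K ^ 3 : ℕ) : ℝ) = K := by push_cast; field_simp; ring
    rw [h3, div_mul_eq_mul_div, one_mul, div_le_iff₀ (by positivity)] at h2
    nlinarith
  have hk : ∀ l < K ^ 3, (f l).2 + 1 ≤ 2 ^ K := by
    intro l hl
    have := hf l hl
    rw [hs, mem_sigma, mem_range, mem_range] at this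
    have h2 : 2 ^ (f l).1 ≤ 2 ^ K := Nat.pow_le_pow_right (by norm_num) this.1.le
    omega
  refine ⟨fun l => (f l).2 + 1, fun l hl => ⟨Nat.le_add_left _ _, hk l hl⟩, ?_⟩
  have main : ∀ t : ℝ, 0 ≤ t → t ≤ Real.pi →
      |∑ l ∈ range (K ^ 3), Real.sin ((((f l).2 + 1 : ℕ) : ℝ) * t)| ≤ 37 * (K : ℝ) ^ 2 := by
    intro t h0 h1
    set m := ⌊t * 4 ^ K⌋₊ with hm
    have hm1 : (m : ℝ) ≤ t * 4 ^ K := Nat.floor_le (by positivity)
    have hm2 : t * 4 ^ K < m + 1 := Nat.lt_floor_add_one _
    have h4 : (0 : ℝ) < 4 ^ K := by positivity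
    have hg1 : g m ≤ t := by simp only [hg]; rw [div_le_iff₀ h4]; exact hm1
    have hg0 : 0 ≤ g m := by simp only [hg]; positivity
    have hg2 : t - g m ≤ 1 / 4 ^ K := by
      simp only [hg]; rw [sub_le_iff_le_add, ← add_div, le_div_iff₀ h4]; linarith
    have hmT : m < 4 ^ (K + 1) := by
      have : (m : ℝ) < 4 ^ (K + 1) := by
        have := Real.pi_lt_four
        rw [pow_succ]; nlinarith
      exact_mod_cast this
    have d1 := hdev (m, true) (by simp [hT, hmT])
    have d2 := hdev (m, false) (by simp [hT, hmT])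
    simp only [hv, if_true, one_mul, Bool.false_eq_true, if_false, neg_one_mul, sum_neg_distrib,
      sum_sub_distrib, sum_const, card_range, nsmul_eq_mul] at d1 d2
    have d3 := mean_bound K hK (g m) hg0 (hg1.trans h1)
    have d4 : |((K ^ 3 : ℕ) : ℝ) * mean K (g m)| ≤ 24 * (K : ℝ) ^ 2 := by
      rw [abs_mul, abs_of_nonneg (by positivity)]
      calc _ ≤ ((K ^ 3 : ℕ) : ℝ) * (24 / K) := mul_le_mul_of_nonneg_left d3 (by positivity)
        _ = _ := by push_cast; field_simp
    have d5 : |∑ l ∈ range (K ^ 3), Real.sin ((((f l).2 + 1 : ℕ) : ℝ) * t) -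
        ∑ l ∈ range (K ^ 3), Real.sin ((((f l).2 : ℝ) + 1) * g m)| ≤ (K : ℝ) ^ 2 := by
      rw [← sum_sub_distrib]
      have hK2 : (K : ℝ) ≤ 2 ^ K := by exact_mod_cast (Nat.lt_two_pow_self (n := K)).le
      calc _ ≤ ∑ l ∈ range (K ^ 3), 1 / (K : ℝ) := by
            refine (abs_sum_le_sum_abs _ _).trans (sum_le_sum fun l hl => ?_)
            refine (Real.abs_sin_sub_sin_le _ _).trans ?_
            have a1 : (((f l).2 : ℝ) + 1) ≤ 2 ^ K := by exact_mod_cast hk l (mem_range.1 hl)
            push_cast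
            rw [← mul_sub, abs_of_nonneg (mul_nonneg (by positivity) (by linarith))]
            calc _ ≤ (2 : ℝ) ^ K * (1 / 4 ^ K) :=
                  mul_le_mul a1 hg2 (by linarith) (by positivity)
              _ = 1 / 2 ^ K := by
                  rw [show (4 : ℝ) = 2 * 2 by norm_num, mul_pow]; field_simp
              _ ≤ _ := one_div_le_one_div_of_le (by linarith) hK2
        _ = _ := by rw [sum_const, card_range, nsmul_eq_mul]; push_cast; field_simp
    have d4' := abs_le.1 d4
    have d5' := abs_le.1 d5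
    rw [abs_le]
    constructor <;> linarith
  intro t ht
  rcases le_total 0 t with h | h
  · exact main t h (by rwa [abs_of_nonneg h] at ht)
  · have := main (-t) (by linarith) (by rwa [abs_of_nonpos h] at ht)
    simp only [mul_neg, Real.sin_neg, sum_neg_distrib, abs_neg] at this
    exact this

lemma diff_norm (d k : ℕ) (hk : k ≤ d) (t : ℝ) :
    Complex.exp (t * Complex.I) ^ (d - k) - Complex.exp (t * Complex.I) ^ (d + k) =
      Complex.exp (t * Complex.I) ^ d * (-2 * Complex.I) * (Real.sin (k * t) : ℝ) := by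
  set z := Complex.exp (t * Complex.I) with hz
  have h1 : z ^ d = z ^ (d - k) * z ^ k := by rw [← pow_add, Nat.sub_add_cancel hk]
  have h2 : z ^ k = Complex.exp ((k * t : ℂ) * Complex.I) := by
    rw [hz, ← Complex.exp_nat_mul]; congr 1; ring
  have h3 : Complex.exp ((k * t : ℂ) * Complex.I) * Complex.exp (-(k * t : ℂ) * Complex.I) = 1 := by
    rw [← Complex.exp_add]; simp
  rw [pow_add, h1, h2]
  push_cast
  rw [Complex.sin]
  have hI : Complex.I * Complex.I = -1 := Complex.I_mul_I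
  set A := Complex.exp ((k * t : ℂ) * Complex.I)
  set B := Complex.exp (-(k * t : ℂ) * Complex.I)
  linear_combination (-(z ^ (d - k))) * h3 + (z ^ (d - k) * A * (B - A)) * hI

/-- the core polynomial -/
lemma core (K : ℕ) (hK : 0 < K) :
    ∃ (P : ℂ[X]) (d : ℕ), P.support.card ≤ 2 * K ^ 3 ∧ (∀ m, 2 * d < m → P.coeff m = 0) ∧
      (∀ z : ℂ, ‖z‖ = 1 → ‖P.eval z‖ ≤ 1 / 2) ∧
      ∑ m ∈ range d, P.coeff m = (K : ℂ) / 148 := by
  obtain ⟨k, hk, hb⟩ := frequencies K hK
  have hK' : (0 : ℝ) < K := by exact_mod_cast hK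
  have hKc : (K : ℂ) ≠ 0 := by exact_mod_cast hK.ne'
  set d := 2 ^ K with hd
  set a : ℂ := 1 / (148 * (K : ℂ) ^ 2) with ha
  refine ⟨∑ l ∈ range (K ^ 3), (monomial (d - k l) a - monomial (d + k l) a), d, ?_, ?_, ?_, ?_⟩
  · calc _ ≤ ((range (K ^ 3)).image (fun l => d - k l) ∪
          (range (K ^ 3)).image (fun l => d + k l)).card := by
          refine card_le_card fun m hm => ?_
          by_contra hne
          rw [mem_union, not_or] at hne
          refine mem_support_iff.1 hm ?_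
          rw [finsetSum_coeff]
          refine sum_eq_zero fun l hl => ?_
          rw [coeff_sub, coeff_monomial, coeff_monomial,
            if_neg fun h => hne.1 (mem_image.2 ⟨l, hl, h⟩),
            if_neg fun h => hne.2 (mem_image.2 ⟨l, hl, h⟩), sub_zero]
      _ ≤ K ^ 3 + K ^ 3 := (card_union_le _ _).trans
          (add_le_add (card_image_le.trans (card_range _).le) (card_image_le.trans (card_range _).le))
      _ = _ := by ring
  · intro m hm
    rw [finsetSum_coeff]
    refine sum_eq_zero fun l hl => ?_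
    have := hk l (mem_range.1 hl)
    rw [coeff_sub, coeff_monomial, coeff_monomial, if_neg (by omega), if_neg (by omega), sub_zero]
  · intro z hz
    have hzt : z = Complex.exp (z.arg * Complex.I) := by
      have := Complex.norm_mul_exp_arg_mul_I z
      rw [hz] at this; simpa using this.symm
    have h1 : eval z (∑ l ∈ range (K ^ 3), (monomial (d - k l) a - monomial (d + k l) a)) =
        a * (z ^ d * (-2 * Complex.I)) *
          ((∑ l ∈ range (K ^ 3), Real.sin (k l * z.arg) : ℝ) : ℂ) := by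
      rw [eval_finsetSum, Complex.ofReal_sum, mul_sum]
      refine sum_congr rfl fun l hl => ?_
      rw [eval_sub, eval_monomial, eval_monomial, ← mul_sub]
      have := diff_norm d (k l) (hk l (mem_range.1 hl)).2 z.arg
      rw [← hzt] at this
      rw [this]; ring
    rw [h1, norm_mul, norm_mul, norm_mul, norm_pow, hz, Complex.norm_real, Real.norm_eq_abs]
    have h2 : ‖a‖ = 1 / (148 * (K : ℝ) ^ 2) := by simp [ha]
    have h3 : ‖-2 * Complex.I‖ = 2 := by simp
    rw [h2, h3, one_pow, one_mul]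
    calc _ ≤ 1 / (148 * (K : ℝ) ^ 2) * 2 * (37 * (K : ℝ) ^ 2) :=
          mul_le_mul_of_nonneg_left (hb _ (Complex.abs_arg_le_pi z)) (by positivity)
      _ = _ := by field_simp; norm_num
  · simp_rw [finsetSum_coeff]
    rw [sum_comm]
    calc _ = ∑ l ∈ range (K ^ 3), a := by
          refine sum_congr rfl fun l hl => ?_
          have := hk l (mem_range.1 hl)
          simp_rw [coeff_sub, coeff_monomial]
          rw [sum_sub_distrib, sum_ite_eq, sum_ite_eq, if_pos (mem_range.2 (by omega)),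
            if_neg (fun h => by have := mem_range.1 h; omega), sub_zero]
      _ = _ := by rw [sum_const, card_range, nsmul_eq_mul, ha]; push_cast; field_simp

/-- padding with small terms of high degree -/
lemma pad (P : ℂ[X]) (D N : ℕ) (hN : 0 < N) (hc : P.support.card ≤ N)
    (hD : ∀ m, D < m → P.coeff m = 0) (hb : ∀ z : ℂ, ‖z‖ = 1 → ‖P.eval z‖ ≤ 1 / 2) :
    ∃ Q : ℂ[X], Q.support.card = N ∧ (∀ z : ℂ, ‖z‖ = 1 → ‖Q.eval z‖ ≤ 1) ∧
      ∀ m ≤ D, Q.coeff m = P.coeff m := by
  have hN' : (0 : ℝ) < N := by exact_mod_cast hN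
  have hNc : (N : ℂ) ≠ 0 := by exact_mod_cast hN.ne'
  set r := N - P.support.card with hr
  set b : ℂ := 1 / (2 * N) with hb'
  have hb0 : b ≠ 0 := by simp [hb', hNc]
  set A : Finset ℕ := Ico (D + 1) (D + 1 + r) with hA
  have hco : ∀ m, (∑ i ∈ A, monomial i b).coeff m = if m ∈ A then b else 0 := by
    intro m
    rw [finsetSum_coeff]
    simp_rw [coeff_monomial]
    rw [sum_ite_eq']
  refine ⟨P + ∑ i ∈ A, monomial i b, ?_, ?_, ?_⟩
  · have h1 : (P + ∑ i ∈ A, monomial i b).support = P.support ∪ A := by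
      ext m
      rw [mem_union, mem_support_iff, mem_support_iff, coeff_add, hco]
      by_cases h : m ∈ A
      · have : P.coeff m = 0 := hD m (by have := (mem_Ico.1 h).1; omega)
        simp [h, this, hb0]
      · simp [h]
    have h2 : Disjoint P.support A := by
      rw [disjoint_left]
      intro m hm h
      exact mem_support_iff.1 hm (hD m (by have := (mem_Ico.1 h).1; omega))
    rw [h1, card_union_of_disjoint h2, hA, Nat.card_Ico]
    omega
  · intro z hz
    rw [eval_add, eval_finsetSum]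
    have h3 : ‖∑ i ∈ A, eval z (monomial i b)‖ ≤ 1 / 2 := by
      calc _ ≤ ∑ i ∈ A, 1 / (2 * (N : ℝ)) := by
            refine (norm_sum_le _ _).trans (sum_le_sum fun i _ => ?_)
            rw [eval_monomial, norm_mul, norm_pow, hz, one_pow, mul_one]
            simp [hb']
        _ = r * (1 / (2 * (N : ℝ))) := by
            rw [sum_const, hA, Nat.card_Ico, nsmul_eq_mul]; congr 2; omega
        _ ≤ N * (1 / (2 * (N : ℝ))) := by
            refine mul_le_mul_of_nonneg_right ?_ (by positivity)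
            exact_mod_cast Nat.sub_le _ _
        _ = _ := by field_simp
    linarith [norm_add_le (eval z P) (∑ i ∈ A, eval z (monomial i b)), hb z hz]
  · intro m hm
    rw [coeff_add, hco, if_neg (fun h => by have := (mem_Ico.1 h).1; omega), add_zero]

theorem result : ∀ N : ℕ, 1 ≤ N → ∃ P : ℂ[X], P.support.card = N ∧
    (∀ z : ℂ, ‖z‖ = 1 → ‖P.eval z‖ ≤ 1) ∧
    ∃ (d : ℕ) (z : ℂ), ‖z‖ = 1 ∧ (P.support.filter (· < d)).Nonempty ∧
      (N : ℝ) ^ (1 / 3 : ℝ) / 444 ≤ ‖∑ m ∈ P.support.filter (· < d), P.coeff m * z ^ m‖ := by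
  intro N hN
  have key : ∃ (P : ℂ[X]) (d : ℕ), P.support.card = N ∧ (∀ z : ℂ, ‖z‖ = 1 → ‖P.eval z‖ ≤ 1) ∧
      (N : ℝ) ^ (1 / 3 : ℝ) / 444 ≤ ‖∑ m ∈ range d, P.coeff m‖ := by
    rcases hN.eq_or_lt with h | h
    · subst h
      refine ⟨monomial 0 1, 1, by rw [support_monomial _ one_ne_zero]; simp, by simp, ?_⟩
      simp; norm_num
    · have hex : ∃ K : ℕ, N < 2 * (K + 1) ^ 3 :=
        ⟨N, by nlinarith [Nat.zero_le N, Nat.zero_le (N ^ 2), Nat.zero_le (N ^ 3)]⟩
      set K := Nat.find hex with hKdef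
      have h1 : N < 2 * (K + 1) ^ 3 := Nat.find_spec hex
      have hK : 0 < K := by
        rcases Nat.eq_zero_or_pos K with h0 | h0
        · rw [h0] at h1; omega
        · exact h0
      have h2 : 2 * K ^ 3 ≤ N := by
        have := Nat.find_min hex (m := K - 1) (by omega)
        rw [Nat.sub_add_cancel hK] at this; omega
      obtain ⟨P, d, c1, c2, c3, c4⟩ := core K hK
      obtain ⟨Q, q1, q2, q3⟩ := pad P (2 * d) N (by omega) (c1.trans h2) c2 c3
      refine ⟨Q, d, q1, q2, ?_⟩
      rw [sum_congr rfl fun m hm => q3 m (by have := mem_range.1 hm; omega), c4]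
      have h3 : ‖(K : ℂ) / 148‖ = K / 148 := by simp
      have hK' : (1 : ℝ) ≤ K := by exact_mod_cast hK
      have h4 : (N : ℝ) ≤ (3 * K) ^ 3 := by
        have : (N : ℝ) ≤ 2 * (K + 1) ^ 3 := by exact_mod_cast h1.le
        have h5 : ((K : ℝ) + 1) ^ 3 ≤ (2 * K) ^ 3 := pow_le_pow_left₀ (by positivity) (by linarith) _
        nlinarith [pow_pos (show (0 : ℝ) < K by linarith) 3]
      have h5 : (N : ℝ) ^ (1 / 3 : ℝ) ≤ 3 * K := by
        calc _ ≤ ((3 * (K : ℝ)) ^ 3) ^ (1 / 3 : ℝ) :=
              Real.rpow_le_rpow (by positivity) h4 (by norm_num)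
          _ = _ := by
              rw [← Real.rpow_natCast, ← Real.rpow_mul (by positivity)]; norm_num
      rw [h3]; linarith
  obtain ⟨P, d, h1, h2, h3⟩ := key
  have h4 : ∑ m ∈ P.support.filter (· < d), P.coeff m * (1 : ℂ) ^ m = ∑ m ∈ range d, P.coeff m := by
    simp_rw [one_pow, mul_one]
    refine sum_subset (fun m hm => mem_range.2 (mem_filter.1 hm).2) fun m hm hm' => ?_
    by_contra hne
    exact hm' (mem_filter.2 ⟨mem_support_iff.2 hne, mem_range.1 hm⟩)
  refine ⟨P, h1, h2, d, 1, norm_one, ?_, by rw [h4]; exact h3⟩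
  rcases (P.support.filter (· < d)).eq_empty_or_nonempty with h | h
  · rw [← h4, h] at h3
    have : (0 : ℝ) < (N : ℝ) ^ (1 / 3 : ℝ) := Real.rpow_pos_of_pos (by exact_mod_cast hN) _
    simp at h3; linarith
  · exact h

end Pool.Agent.Results.MP_9a0a6c_an.CubeRoot
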